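import Mathlib
import Pool.Agent.P8H10.ET.StmC

/-! # Project ET (helper10): packages HOL and GE -/

set_option autoImplicit false

open Filter Topology
open scoped PeriodPair

namespace Pool.Agent.P8H1.ET

open Pool.Agent.P8H10.ET

/-- the denominators do not vanish on the upper half plane -/
theorem den_ne {τ : ℂ} (hτ : 0 < τ.im) {p : ℤ × ℤ} (hp : p ≠ 0) : (p.1 : ℂ) + p.2 * τ ≠ 0 := by
  intro h
  have him := congrArg Complex.im h
  simp at him
  rcases him with h2 | h2
  · have hre := congrArg Complex.re h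
    simp [h2] at hre
    exact hp (Prod.ext (by exact_mod_cast hre) (by exact_mod_cast h2))
  · linarith

theorem hol : S_HOL := by
  intro k hk
  constructor
  · intro τ₀ hτ₀
    have hτ₀' : 0 < τ₀.im := hτ₀
    -- the strip
    set A : ℝ := |τ₀.re| + 1 with hA
    set B : ℝ := τ₀.im / 2 with hB
    have hBpos : 0 < B := by rw [hB]; linarith
    set U : Set ℂ := {τ : ℂ | |τ.re| < A ∧ B < τ.im} with hU
    have hUo : IsOpen U := by
      apply IsOpen.inter
      · exact isOpen_lt (continuous_abs.comp Complex.continuous_re) continuous_const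
      · exact isOpen_lt continuous_const Complex.continuous_im
    have hmem : τ₀ ∈ U := by
      refine ⟨by rw [hA]; linarith, by rw [hB]; linarith⟩
    have hk' : (2 : ℝ) < k := by exact_mod_cast (by omega : 2 < k)
    let e : ℤ × ℤ ≃ (Fin 2 → ℤ) := (Equiv.prodComm ℤ ℤ).trans (finTwoArrowEquiv ℤ).symm
    have hsum : Summable (fun p : ℤ × ℤ =>
        EisensteinSeries.r ⟨⟨A, B⟩, hBpos⟩ ^ (-(k : ℝ)) * ‖e p‖ ^ (-(k : ℝ))) := by
      apply Summable.mul_left
      exact (e.summable_iff (f := fun x : Fin 2 → ℤ => ‖x‖ ^ (-(k : ℝ)))).mpr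
        (EisensteinSeries.summable_one_div_norm_rpow hk')
    have hd := Complex.differentiableOn_tsum_of_summable_norm (U := U)
      (F := fun (p : ℤ × ℤ) (τ : ℂ) => (((p.1 : ℂ) + p.2 * τ) ^ k)⁻¹) hsum ?_ hUo ?_
    · exact ((hd τ₀ hmem).differentiableAt (hUo.mem_nhds hmem)).differentiableWithinAt
    · intro p τ hτ
      have him : 0 < τ.im := lt_trans hBpos hτ.2
      by_cases hp : p = 0
      · subst hp
        have : (fun τ : ℂ => ((((0 : ℤ × ℤ).1 : ℂ) + ((0 : ℤ × ℤ).2 : ℂ) * τ) ^ k)⁻¹) = fun _ => 0 := by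
          funext τ
          simp [show k ≠ 0 by omega]
        rw [this]
        exact differentiableWithinAt_const _
      · apply DifferentiableAt.differentiableWithinAt
        apply DifferentiableAt.inv
        · fun_prop
        · exact pow_ne_zero _ (den_ne him hp)
    · intro p τ hτ
      have him : 0 < τ.im := lt_trans hBpos hτ.2
      have hz : (⟨τ, him⟩ : UpperHalfPlane) ∈ UpperHalfPlane.verticalStrip A B := by
        refine ⟨le_of_lt hτ.1, le_of_lt hτ.2⟩
      have := EisensteinSeries.summand_bound_of_mem_verticalStrip (z := ⟨τ, him⟩) (k := (k : ℝ))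
        (by positivity) (e p) hBpos hz
      refine le_trans (le_of_eq ?_) this
      rw [norm_inv, norm_pow, Real.rpow_neg (norm_nonneg _), Real.rpow_natCast]
      have h0 : (e p) 0 = p.2 := rfl
      have h1 : (e p) 1 = p.1 := rfl
      rw [h0, h1, add_comm]
  · intro hev τ
    unfold EG
    rw [← (Equiv.prodCongr (Equiv.neg ℤ) (Equiv.refl ℤ)).tsum_eq]
    apply tsum_congr
    intro p
    congr 1
    simp only [Equiv.prodCongr_apply, Equiv.coe_refl, Prod.map_fst, Prod.map_snd, Equiv.neg_apply, id]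
    rw [← hev.neg_pow]
    congr 1
    push_cast
    ring

theorem ge : S_GE := by
  intro L k
  unfold PeriodPair.G EG
  have h := (L.latticeEquivProd.symm.toEquiv.tsum_eq (fun l : L.lattice => ((l : ℂ) ^ k)⁻¹))
  rw [← h, ← tsum_mul_left]
  apply tsum_congr
  intro p
  have h1 : ((L.latticeEquivProd.symm.toEquiv p : L.lattice) : ℂ) = p.1 * L.ω₁ + p.2 * L.ω₂ :=
    L.latticeEquiv_symm_apply p
  rw [h1, ← mul_inv, ← mul_pow]
  congr 2
  have h0 : L.ω₁ ≠ 0 := by
    have := L.indep.ne_zero 0
    simpa using this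
  field_simp

end Pool.Agent.P8H1.ET
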